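import Mathlib

/-!
Multiplicative dependence of integer tuples: definitions and basic tools.
-/

namespace Pool.Agent.R441.MD

open Finset

/-- `(z_1, …, z_k)` is multiplicatively dependent: `∏ z_i ^ e_i = 1` for some nonzero integer
vector `e`. -/
def MulDep {k : ℕ} (z : Fin k → ℤ) : Prop :=
  ∃ e : Fin k → ℤ, e ≠ 0 ∧ ∏ i, (z i : ℚ) ^ (e i) = 1

/-- `(a_1, …, a_n)` is `k`-multiplicatively dependent: some `k`-subtuple is multiplicatively
dependent and every `(k-1)`-subtuple is multiplicatively independent. -/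
def KMulDep {n : ℕ} (k : ℕ) (a : Fin n → ℤ) : Prop :=
  (∃ f : Fin k → Fin n, StrictMono f ∧ MulDep (fun i => a (f i))) ∧
  ∀ g : Fin (k - 1) → Fin n, StrictMono g → ¬ MulDep (fun i => a (g i))

/-- full support property of all relations -/
def Full {n : ℕ} (a : Fin n → ℤ) : Prop :=
  ∀ e : Fin n → ℤ, ∏ i, (a i : ℚ) ^ (e i) = 1 → (∃ i, e i = 0) → e = 0

lemma kmulDep_of_full {n : ℕ} (hn : 1 ≤ n) (a : Fin n → ℤ) (h1 : MulDep a) (h2 : Full a) :
    KMulDep n a := by
  refine ⟨⟨id, strictMono_id, h1⟩, ?_⟩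
  rintro g hg ⟨e, he, hprod⟩
  have hinj : Function.Injective g := hg.injective
  set e' : Fin n → ℤ := Function.extend g e 0 with he'
  have hgi : ∀ j, e' (g j) = e j := fun j => hinj.extend_apply e 0 j
  have hns : ∃ i, i ∉ Set.range g := by
    by_contra hcon
    push Not at hcon
    have hs : Function.Surjective g := fun i => hcon i
    have := Fintype.card_le_of_surjective g hs
    simp only [Fintype.card_fin] at this
    omega
  obtain ⟨i0, hi0⟩ := hns
  have h0 : e' i0 = 0 := by
    rw [he', Function.extend_apply' _ _ _ (fun ⟨j, hj⟩ => hi0 ⟨j, hj⟩)]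
    rfl
  have hp : ∏ i, (a i : ℚ) ^ (e' i) = 1 := by
    rw [← hprod]
    have : ∏ j, ((a (g j) : ℤ) : ℚ) ^ (e j) = ∏ i ∈ univ.image g, (a i : ℚ) ^ (e' i) := by
      rw [Finset.prod_image (fun x _ y _ h => hinj h)]
      exact Finset.prod_congr rfl (fun j _ => by rw [hgi])
    rw [this]
    symm
    apply Finset.prod_subset (Finset.subset_univ _)
    intro i _ hi
    have : e' i = 0 := by
      rw [he', Function.extend_apply' _ _ _ (fun ⟨j, hj⟩ => hi (by
        rw [← hj]; exact Finset.mem_image_of_mem g (Finset.mem_univ j)))]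
      rfl
    rw [this, zpow_zero]
  have := h2 e' hp ⟨i0, h0⟩
  apply he
  funext j
  rw [← hgi j, this]
  rfl

lemma injective_of_full {n : ℕ} (hn : 3 ≤ n) (a : Fin n → ℤ) (hpos : ∀ i, 1 < a i)
    (h2 : Full a) : Function.Injective a := by
  intro i l hil
  by_contra hne
  -- third index
  have : ∃ m : Fin n, m ≠ i ∧ m ≠ l := by
    have hc : 2 < Fintype.card (Fin n) := by simp; omega
    obtain ⟨m, hm⟩ := Finset.exists_mem_notMem_of_card_lt_card
      (s := ({i, l} : Finset (Fin n))) (t := univ)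
      (lt_of_le_of_lt (Finset.card_le_two) (by simpa using hc))
    refine ⟨m, ?_, ?_⟩
    · rintro rfl; exact hm.2 (by simp)
    · rintro rfl; exact hm.2 (by simp)
  obtain ⟨m, hmi, hml⟩ := this
  have hai : (a i : ℚ) ≠ 0 := by
    have := hpos i
    exact_mod_cast (by omega : a i ≠ 0)
  have := h2 (Pi.single i 1 - Pi.single l 1) ?_ ⟨m, by simp [hmi, hml]⟩
  · have h3 := congrFun this i
    simp [hne] at h3
  · rw [Finset.prod_eq_mul i l hne]
    · simp only [Pi.sub_apply, Pi.single_eq_same, Pi.single_eq_of_ne hne,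
        Pi.single_eq_of_ne (Ne.symm hne), sub_zero, zero_sub, zpow_one, zpow_neg]
      rw [← hil]
      exact mul_inv_cancel₀ hai
    · intro c _ hc
      simp [hc.1, hc.2]
    · simp
    · simp

/-- valuations of a multiplicative relation -/
lemma val_sum {n : ℕ} (a : Fin n → ℤ) (hpos : ∀ i, a i ≠ 0) (e : Fin n → ℤ)
    (h : ∏ i, (a i : ℚ) ^ (e i) = 1) (p : ℕ) [hp : Fact p.Prime] :
    ∑ i, e i * padicValRat p (a i) = 0 := by
  have key : ∀ s : Finset (Fin n), padicValRat p (∏ i ∈ s, (a i : ℚ) ^ (e i)) =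
      ∑ i ∈ s, e i * padicValRat p (a i) := by
    intro s
    induction s using Finset.induction_on with
    | empty => simp
    | insert i s hi ih =>
      rw [Finset.prod_insert hi, Finset.sum_insert hi, padicValRat.mul, ih, padicValRat.zpow]
      · exact zpow_ne_zero _ (by exact_mod_cast hpos i)
      · exact Finset.prod_ne_zero_iff.mpr (fun j _ => zpow_ne_zero _ (by exact_mod_cast hpos j))
  rw [← key, h, padicValRat.one]

end Pool.Agent.R441.MD
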