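import Pool.Agent.R441.MD.Val

/-!
The families for `n = j + 4`, `j ≥ 1`.
-/

namespace Pool.Agent.R441.MD

open Finset

/-- concatenation of a `j`-tuple and a `4`-tuple -/
def tup {j : ℕ} (w : Fin j → ℤ) (v : Fin 4 → ℤ) : Fin (j + 4) → ℤ := Fin.append w v

lemma tup_castAdd {j : ℕ} (w : Fin j → ℤ) (v : Fin 4 → ℤ) (i : Fin j) :
    tup w v (Fin.castAdd 4 i) = w i := Fin.append_left w v i

lemma tup_natAdd {j : ℕ} (w : Fin j → ℤ) (v : Fin 4 → ℤ) (i : Fin 4) :
    tup w v (Fin.natAdd j i) = v i := Fin.append_right w v i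

lemma tup_forall {j : ℕ} (w : Fin j → ℤ) (v : Fin 4 → ℤ) (P : ℤ → Prop)
    (hw : ∀ i, P (w i)) (hv : ∀ i, P (v i)) : ∀ i, P (tup w v i) := by
  intro i
  refine Fin.addCases (fun i => ?_) (fun i => ?_) i
  · rw [tup_castAdd]; exact hw i
  · rw [tup_natAdd]; exact hv i

lemma tup_rel {j : ℕ} (w : Fin j → ℤ) (v : Fin 4 → ℤ) (hw : ∀ i, w i ≠ 0) (hv : ∀ i, v i ≠ 0)
    (e : Fin (j + 4) → ℤ) (h : ∏ i, (tup w v i : ℚ) ^ (e i) = 1) (p : ℕ) [Fact p.Prime] :
    ∑ i, e (Fin.castAdd 4 i) * V p (w i) + (e (Fin.natAdd j 0) * V p (v 0) +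
      e (Fin.natAdd j 1) * V p (v 1) + e (Fin.natAdd j 2) * V p (v 2) +
      e (Fin.natAdd j 3) * V p (v 3)) = 0 := by
  have := val_sum' _ (tup_forall w v (· ≠ 0) hw hv) e h p
  rw [Fin.sum_univ_add] at this
  rw [← Fin.sum_univ_four (fun i => e (Fin.natAdd j i) * V p (v i))]
  simpa only [tup_castAdd, tup_natAdd] using this

lemma tup_prod {j : ℕ} (w : Fin j → ℤ) (v : Fin 4 → ℤ) (e : Fin j → ℤ) (f : Fin 4 → ℤ) :
    ∏ i, (tup w v i : ℚ) ^ (tup e f i) =
      (∏ i, (w i : ℚ) ^ (e i)) * ((v 0 : ℚ) ^ (f 0) * (v 1 : ℚ) ^ (f 1) * (v 2 : ℚ) ^ (f 2) *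
        (v 3 : ℚ) ^ (f 3)) := by
  rw [Fin.prod_univ_add, ← Fin.prod_univ_four (fun i => (v i : ℚ) ^ (f i))]
  simp only [tup_castAdd, tup_natAdd]

lemma full_orig {j : ℕ} (w : Fin j → ℤ) (om : Fin j → ℕ) (X Z p q : ℤ)
    (hX : X = ∏ i, w i) (hom : ∀ i, (om i).Prime) (hwo : ∀ i, w i = om i)
    (hinj : Function.Injective om) (hZw : ∀ i, ¬ (om i : ℤ) ∣ Z) (hZ : 2 ≤ Z)
    (hp : p ≠ 0) (hq : q ≠ 0) (P Q : ℕ) (hP : P.Prime) (hQ : Q.Prime)
    (hPp : (P : ℤ) ∣ p) (hPX : ¬ (P : ℤ) ∣ X) (hPZ : ¬ (P : ℤ) ∣ Z) (hPq : ¬ (P : ℤ) ∣ q)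
    (hQq : (Q : ℤ) ∣ q) (hQX : ¬ (Q : ℤ) ∣ X) (hQZ : ¬ (Q : ℤ) ∣ Z) (hQp : ¬ (Q : ℤ) ∣ p) :
    Full (tup w ![Z * (Z * p), X * p, Z * q, X * q]) := by
  intro e he ⟨i0, hi0⟩
  have hZ0 : Z ≠ 0 := by omega
  have hw : ∀ i, w i ≠ 0 := fun i => by
    rw [hwo i]; exact_mod_cast (hom i).ne_zero
  have hX0 : X ≠ 0 := by
    rw [hX]; exact Finset.prod_ne_zero_iff.mpr (fun i _ => hw i)
  have hv : ∀ i, (![Z * (Z * p), X * p, Z * q, X * q] : Fin 4 → ℤ) i ≠ 0 := by
    intro i
    fin_cases i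
    · exact mul_ne_zero hZ0 (mul_ne_zero hZ0 hp)
    · exact mul_ne_zero hX0 hp
    · exact mul_ne_zero hZ0 hq
    · exact mul_ne_zero hX0 hq
  set α := e (Fin.natAdd j 0) with hα
  set β := e (Fin.natAdd j 1) with hβ
  set γ := e (Fin.natAdd j 2) with hγ
  set δ := e (Fin.natAdd j 3) with hδ
  have key : ∀ π : ℕ, π.Prime → ∑ i, e (Fin.castAdd 4 i) * V π (w i) +
      (α * (V π Z + (V π Z + V π p)) + β * ((∑ i, V π (w i)) + V π p) +
        γ * (V π Z + V π q) + δ * ((∑ i, V π (w i)) + V π q)) = 0 := by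
    intro π hπ
    haveI : Fact π.Prime := ⟨hπ⟩
    have := tup_rel w _ hw hv e he π
    simp only [Matrix.cons_val_zero, Matrix.cons_val_one, Matrix.cons_val] at this
    rw [V_mul π hZ0 (mul_ne_zero hZ0 hp), V_mul π hZ0 hp, V_mul π hX0 hp, V_mul π hZ0 hq,
      V_mul π hX0 hq, hX, V_prod π univ w (fun i _ => hw i)] at this
    exact this
  have wX : ∀ i, w i ∣ X := fun i => by rw [hX]; exact Finset.dvd_prod_of_mem w (Finset.mem_univ i)
  have zero_of : ∀ π : ℕ, ¬ (π : ℤ) ∣ X → ∀ i, V π (w i) = 0 := fun π hπ i =>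
    V_eq_zero π (fun h => hπ (h.trans (wX i)))
  -- P
  have h1 : α + β = 0 := by
    haveI : Fact P.Prime := ⟨hP⟩
    have := key P hP
    simp only [zero_of P hPX, V_eq_zero P hPZ, V_eq_zero P hPq, mul_zero, Finset.sum_const_zero,
      zero_add, add_zero] at this
    have hv := V_ne_zero P hp hPp
    have h : (α + β) * V P p = 0 := by linarith
    exact (mul_eq_zero.mp h).resolve_right hv
  have h2 : γ + δ = 0 := by
    haveI : Fact Q.Prime := ⟨hQ⟩
    have := key Q hQ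
    simp only [zero_of Q hQX, V_eq_zero Q hQZ, V_eq_zero Q hQp, mul_zero, Finset.sum_const_zero,
      zero_add, add_zero] at this
    have hv := V_ne_zero Q hq hQq
    have h : (γ + δ) * V Q q = 0 := by linarith
    exact (mul_eq_zero.mp h).resolve_right hv
  have h3 : ∀ i, e (Fin.castAdd 4 i) + β + δ = 0 := by
    intro i
    haveI : Fact (om i).Prime := ⟨hom i⟩
    have := key (om i) (hom i)
    have hother : ∀ l, l ≠ i → V (om i) (w l) = 0 := by
      intro l hl
      apply V_eq_zero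
      rw [hwo l]
      intro hd
      have h := Int.natCast_dvd_natCast.mp hd
      have := (Nat.prime_dvd_prime_iff_eq (hom i) (hom l)).mp h
      exact hl (hinj this).symm
    rw [Finset.sum_eq_single i (fun l _ hl => by rw [hother l hl, mul_zero]) (by simp),
      Finset.sum_eq_single i (fun l _ hl => hother l hl) (by simp), V_eq_zero _ (hZw i)] at this
    have hv := V_ne_zero (om i) (hw i) (by rw [hwo i])
    have hβ' : β = -α := by linarith
    have hδ' : δ = -γ := by linarith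
    have h : (e (Fin.castAdd 4 i) + β + δ) * V (om i) (w i) = 0 := by
      rw [hβ', hδ'] at this ⊢
      linarith
    exact (mul_eq_zero.mp h).resolve_right hv
  have h4 : 2 * α + γ = 0 := by
    obtain ⟨π, hπ, hπZ⟩ := exists_prime_dvd hZ
    haveI : Fact π.Prime := ⟨hπ⟩
    have := key π hπ
    have hother : ∀ l, V π (w l) = 0 := by
      intro l
      apply V_eq_zero
      rw [hwo l]
      intro hd
      have h := Int.natCast_dvd_natCast.mp hd
      have h' := (Nat.prime_dvd_prime_iff_eq hπ (hom l)).mp h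
      exact hZw l (h' ▸ hπZ)
    simp only [hother, mul_zero, Finset.sum_const_zero, zero_add] at this
    have hv := V_ne_zero π hZ0 hπZ
    have hβ' : β = -α := by linarith
    have hδ' : δ = -γ := by linarith
    have h : (2 * α + γ) * V π Z = 0 := by
      rw [hβ', hδ'] at this
      linarith
    exact (mul_eq_zero.mp h).resolve_right hv
  have h5 : α = 0 := by
    revert hi0
    refine Fin.addCases (fun i => ?_) (fun i => ?_) i0
    · intro h
      have := h3 i
      rw [h] at this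
      omega
    · intro h
      fin_cases i
      · exact h
      · have : β = 0 := h
        omega
      · have : γ = 0 := h
        omega
      · have : δ = 0 := h
        omega
  funext i
  refine Fin.addCases (fun i => ?_) (fun i => ?_) i
  · have := h3 i
    simp only [Pi.zero_apply]
    omega
  · fin_cases i
    · exact h5
    · show β = 0
      omega
    · show γ = 0
      omega
    · show δ = 0
      omega

lemma full_shift {j : ℕ} (w : Fin j → ℤ) (pi : Fin j → ℕ) (T1 T2 Z m u : ℤ)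
    (hZ : Z = ∏ i, w i) (hw : ∀ i, w i ≠ 0) (hpi : ∀ i, (pi i).Prime)
    (hpi1 : ∀ i, (pi i : ℤ) ∣ w i) (hpi2 : ∀ i l, l ≠ i → ¬ (pi i : ℤ) ∣ w l)
    (hT1 : T1 ≠ 0) (hT2 : T2 ≠ 0) (hm : m ≠ 0) (hu : u ≠ 0)
    (R S h : ℕ) (hR : R.Prime) (hS : S.Prime) (hh : h.Prime)
    (hRu : (R : ℤ) ∣ u) (hRm : ¬ (R : ℤ) ∣ m) (hRT1 : ¬ (R : ℤ) ∣ T1) (hRT2 : ¬ (R : ℤ) ∣ T2)
    (hRZ : ¬ (R : ℤ) ∣ Z)
    (hSm : (S : ℤ) ∣ m) (hSu : ¬ (S : ℤ) ∣ u) (hST1 : ¬ (S : ℤ) ∣ T1) (hST2 : ¬ (S : ℤ) ∣ T2)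
    (hSZ : ¬ (S : ℤ) ∣ Z) (hhT : V h T1 ≠ V h T2) (hhZ : ¬ (h : ℤ) ∣ Z) :
    Full (tup w ![T1 * u, T1 * m, T2 * u, Z * (T2 * m)]) := by
  intro e he ⟨i0, hi0⟩
  have hZ0 : Z ≠ 0 := by
    rw [hZ]; exact Finset.prod_ne_zero_iff.mpr (fun i _ => hw i)
  have hv : ∀ i, (![T1 * u, T1 * m, T2 * u, Z * (T2 * m)] : Fin 4 → ℤ) i ≠ 0 := by
    intro i
    fin_cases i
    · exact mul_ne_zero hT1 hu
    · exact mul_ne_zero hT1 hm
    · exact mul_ne_zero hT2 hu
    · exact mul_ne_zero hZ0 (mul_ne_zero hT2 hm)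
  set α := e (Fin.natAdd j 0) with hα
  set β := e (Fin.natAdd j 1) with hβ
  set γ := e (Fin.natAdd j 2) with hγ
  set δ := e (Fin.natAdd j 3) with hδ
  have key : ∀ π : ℕ, π.Prime → ∑ i, e (Fin.castAdd 4 i) * V π (w i) +
      (α * (V π T1 + V π u) + β * (V π T1 + V π m) +
        γ * (V π T2 + V π u) + δ * ((∑ i, V π (w i)) + (V π T2 + V π m))) = 0 := by
    intro π hπ
    haveI : Fact π.Prime := ⟨hπ⟩
    have := tup_rel w _ hw hv e he π
    simp only [Matrix.cons_val_zero, Matrix.cons_val_one, Matrix.cons_val] at this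
    rw [V_mul π hT1 hu, V_mul π hT1 hm, V_mul π hT2 hu, V_mul π hZ0 (mul_ne_zero hT2 hm),
      V_mul π hT2 hm, hZ, V_prod π univ w (fun i _ => hw i)] at this
    exact this
  have wZ : ∀ i, w i ∣ Z := fun i => by rw [hZ]; exact Finset.dvd_prod_of_mem w (Finset.mem_univ i)
  have zero_of : ∀ π : ℕ, ¬ (π : ℤ) ∣ Z → ∀ i, V π (w i) = 0 := fun π hπ i =>
    V_eq_zero π (fun h => hπ (h.trans (wZ i)))
  have h1 : α + γ = 0 := by
    haveI : Fact R.Prime := ⟨hR⟩
    have := key R hR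
    simp only [zero_of R hRZ, V_eq_zero R hRT1, V_eq_zero R hRT2, V_eq_zero R hRm, mul_zero,
      Finset.sum_const_zero, zero_add, add_zero] at this
    have hv := V_ne_zero R hu hRu
    have h : (α + γ) * V R u = 0 := by linarith
    exact (mul_eq_zero.mp h).resolve_right hv
  have h2 : β + δ = 0 := by
    haveI : Fact S.Prime := ⟨hS⟩
    have := key S hS
    simp only [zero_of S hSZ, V_eq_zero S hST1, V_eq_zero S hST2, V_eq_zero S hSu, mul_zero,
      Finset.sum_const_zero, zero_add, add_zero] at this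
    have hv := V_ne_zero S hm hSm
    have h : (β + δ) * V S m = 0 := by linarith
    exact (mul_eq_zero.mp h).resolve_right hv
  have hγ' : γ = -α := by linarith
  have hβ' : β = -δ := by linarith
  have h3 : α = δ := by
    haveI : Fact h.Prime := ⟨hh⟩
    have := key h hh
    simp only [zero_of h hhZ, mul_zero, Finset.sum_const_zero, zero_add] at this
    rw [hγ', hβ'] at this
    have h' : (α - δ) * (V h T1 - V h T2) = 0 := by linarith
    have := (mul_eq_zero.mp h').resolve_right (sub_ne_zero.mpr hhT)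
    linarith
  have h4 : ∀ i, e (Fin.castAdd 4 i) + δ = 0 := by
    intro i
    haveI : Fact (pi i).Prime := ⟨hpi i⟩
    have := key (pi i) (hpi i)
    have hother : ∀ l, l ≠ i → V (pi i) (w l) = 0 := fun l hl => V_eq_zero _ (hpi2 i l hl)
    rw [Finset.sum_eq_single i (fun l _ hl => by rw [hother l hl, mul_zero]) (by simp),
      Finset.sum_eq_single i (fun l _ hl => hother l hl) (by simp)] at this
    have hv := V_ne_zero (pi i) (hw i) (hpi1 i)
    have h : (e (Fin.castAdd 4 i) + δ) * V (pi i) (w i) = 0 := by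
      rw [hγ', hβ', h3] at this
      linarith
    exact (mul_eq_zero.mp h).resolve_right hv
  have h5 : δ = 0 := by
    revert hi0
    refine Fin.addCases (fun i => ?_) (fun i => ?_) i0
    · intro h
      have := h4 i
      rw [h] at this
      omega
    · intro h
      fin_cases i
      · have : α = 0 := h
        omega
      · have : β = 0 := h
        omega
      · have : γ = 0 := h
        omega
      · exact h
  funext i
  refine Fin.addCases (fun i => ?_) (fun i => ?_) i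
  · have := h4 i
    simp only [Pi.zero_apply]
    omega
  · fin_cases i
    · show α = 0
      omega
    · show β = 0
      omega
    · show γ = 0
      omega
    · exact h5

end Pool.Agent.R441.MD
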