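import Pool.Agent.R441.MD.Main

/-!
Assembly: for every `n ≥ 5` arbitrarily large tuples.
-/

namespace Pool.Agent.R441.MD

open Finset

lemma exists_V_ne (x y : ℤ) (hx : 0 < x) (hy : 0 < y) (hne : x ≠ y) :
    ∃ h : ℕ, h.Prime ∧ V h x ≠ V h y := by
  by_contra hcon
  push Not at hcon
  apply hne
  have hx' : ((x.toNat : ℕ) : ℤ) = x := Int.toNat_of_nonneg hx.le
  have hy' : ((y.toNat : ℕ) : ℤ) = y := Int.toNat_of_nonneg hy.le
  have : x.toNat = y.toNat := by
    apply Nat.eq_of_factorization_eq (by omega) (by omega)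
    intro p
    by_cases hp : p.Prime
    · rw [Nat.factorization_def _ hp, Nat.factorization_def _ hp]
      have h := hcon p hp
      rw [← hx', ← hy'] at h
      unfold V at h
      have e1 : ∀ n : ℕ, padicValRat p (((n : ℕ) : ℤ) : ℚ) = padicValNat p n := by
        intro n
        rw [show (((n : ℕ) : ℤ) : ℚ) = (n : ℚ) by push_cast; rfl]
        exact padicValRat.of_nat
      rw [e1, e1] at h
      exact_mod_cast h
    · rw [Nat.factorization_eq_zero_of_not_prime _ hp, Nat.factorization_eq_zero_of_not_prime _ hp]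
  omega

lemma exists_large (j : ℕ) (hj : 1 ≤ j) (B : ℤ) : ∃ a : Fin (j + 4) → ℤ, (∀ i, 1 < a i) ∧
    MulDep a ∧ Full a ∧ MulDep (fun i => a i + 1) ∧ Full (fun i => a i + 1) ∧ ∃ i, B < a i := by
  obtain ⟨f, hf, hr⟩ := exists_seq
  set w : Fin j → ℕ := fun i => f i with hw
  have wp : ∀ i, (w i).Prime := fun i => (hf i).1
  have w4 : ∀ i, w i % 4 = 1 := fun i => (hf i).2
  have wlt : ∀ l i : Fin j, l < i → w l < w i := fun l i h => (hr l i h).1
  have wmod : ∀ l i : Fin j, l < i → w i ≡ 1 [MOD (w l * (w l + 1))] :=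
    fun l i h => (hr l i h).2
  have w5 : ∀ i, 5 ≤ w i := by
    intro i
    have h1 := (wp i).two_le
    have h2 := w4 i
    omega
  have winj : Function.Injective w := by
    intro a b hab
    rcases lt_trichotomy a b with h | h | h
    · exact absurd hab (wlt _ _ h).ne
    · exact h
    · exact absurd hab.symm (wlt _ _ h).ne
  -- w i does not divide w l + 1
  have A : ∀ i l, ¬ w i ∣ w l + 1 := by
    intro i l hd
    rcases lt_trichotomy l i with h | h | h
    · -- l < i
      have h1 := wlt _ _ h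
      have h2 := Nat.le_of_dvd (by omega) hd
      have h3 := w4 i
      have h4 := w4 l
      omega
    · subst h
      have := (Nat.dvd_add_right (dvd_refl (w l))).mp hd
      have h1 := Nat.le_of_dvd one_pos this
      have := w5 l
      omega
    · -- i < l
      have h1 : w l ≡ 1 [MOD w i] := (wmod _ _ h).of_mul_right _
      have h2 : w l + 1 ≡ 2 [MOD w i] := h1.add_right 1
      have h3 := (h2.dvd_iff (dvd_refl _)).mp hd
      have := Nat.le_of_dvd two_pos h3
      have := w5 i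
      omega
  set X : ℤ := ∏ i, (w i : ℤ) with hX
  set Z : ℤ := ∏ i, ((w i : ℤ) + 1) with hZ
  have wpi : ∀ i, Prime (w i : ℤ) := fun i => Nat.prime_iff_prime_int.mp (wp i)
  have wZ : ∀ i, ¬ (w i : ℤ) ∣ Z := by
    intro i hd
    rw [hZ] at hd
    obtain ⟨l, _, hl⟩ := (wpi i).exists_mem_finset_dvd hd
    exact A i l (by exact_mod_cast hl)
  have hne : (univ : Finset (Fin j)).Nonempty := ⟨⟨0, by omega⟩, Finset.mem_univ _⟩
  have hX1 : 1 ≤ X := by
    have : 0 < X := Finset.prod_pos (fun i _ => by exact_mod_cast (wp i).pos)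
    omega
  have hXZ : X < Z := by
    apply Finset.prod_lt_prod_of_nonempty
    · intro i _; exact_mod_cast (wp i).pos
    · intro i _; omega
    · exact hne
  have hZ0 : 0 < Z := by omega
  have hcopZX : IsCoprime Z X := by
    rw [hX]
    apply IsCoprime.prod_right
    intro i _
    exact ((wpi i).coprime_iff_not_dvd.mpr (wZ i)).symm
  have hcop : IsCoprime (Z * Z) X := IsCoprime.mul_left hcopZX hcopZX
  -- odd prime factors of w i + 1
  have hpi : ∀ i, ∃ q : ℕ, q.Prime ∧ q ≠ 2 ∧ q ∣ w i + 1 := by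
    intro i
    have h1 := w5 i
    have h2 := w4 i
    refine ⟨((w i + 1) / 2).minFac, Nat.minFac_prime (by omega), ?_, ?_⟩
    · intro h
      have h3 := Nat.minFac_dvd ((w i + 1) / 2)
      rw [h] at h3
      omega
    · have h3 : (w i + 1) / 2 ∣ w i + 1 := ⟨2, by omega⟩
      exact (Nat.minFac_dvd _).trans h3
  choose pi pip pi2 pid using hpi
  have pin : ∀ i l, l ≠ i → ¬ (pi i : ℤ) ∣ (w l : ℤ) + 1 := by
    intro i l hl hd
    have hd' : pi i ∣ w l + 1 := by exact_mod_cast hd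
    have two : ¬ pi i ∣ 2 := by
      intro h
      exact pi2 i ((Nat.prime_dvd_prime_iff_eq (pip i) Nat.prime_two).mp h)
    rcases lt_or_gt_of_ne hl with h | h
    · -- l < i : w i ≡ 1 mod (w l + 1)
      have h1 : w i ≡ 1 [MOD (w l + 1)] := (wmod _ _ h).of_mul_left _
      have h2 : w i + 1 ≡ 2 [MOD pi i] := (h1.of_dvd hd').add_right 1
      exact two ((h2.dvd_iff (dvd_refl _)).mp (pid i))
    · have h1 : w l ≡ 1 [MOD (w i + 1)] := (wmod _ _ h).of_mul_left _
      have h2 : w l + 1 ≡ 2 [MOD pi i] := (h1.of_dvd (pid i)).add_right 1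
      exact two ((h2.dvd_iff (dvd_refl _)).mp hd')
  -- h
  have hT1 : 0 < Z * Z - X := by nlinarith
  have hT2 : 0 < Z - X := by omega
  obtain ⟨h, hh, hV⟩ := exists_V_ne (Z * Z - X) (Z - X) hT1 hT2 (by
    intro h
    have h1 : Z * Z = Z := by linarith
    have h2 : Z * (Z - 1) = 0 := by linarith
    rcases mul_eq_zero.mp h2 with h3 | h3 <;> omega)
  have hhZ : ¬ (h : ℤ) ∣ Z := by
    intro hd
    have hnX := not_dvd_of_coprime hh hcopZX hd
    apply hV
    rw [V_eq_zero h, V_eq_zero h]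
    · intro h1
      exact hnX (by have := dvd_sub hd h1; rwa [sub_sub_cancel] at this)
    · intro h1
      exact hnX (by have := dvd_sub (hd.mul_left Z) h1; rwa [sub_sub_cancel] at this)
  obtain ⟨m, u, P, Q, R, S, r1, m0, u0, hB, p0, q0, hP, hQ, hR, hS, P1, P2, P3, P4, Q1, Q2, Q3,
    Q4, R1, R2, R3, R4, R5, S1, S2, S3, S4, S5⟩ := exists_params X Z hX1 hXZ hcop B
  set v : Fin 4 → ℤ := ![Z * (Z * (u - m)), X * (u - m), Z * (u - Z * m), X * (u - Z * m)]
    with hv
  set v' : Fin 4 → ℤ := ![(Z * Z - X) * u, (Z * Z - X) * m, (Z - X) * u, Z * ((Z - X) * m)]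
    with hv'
  have hX5 : 5 ≤ X := by
    have h1 : (w ⟨0, by omega⟩ : ℤ) ∣ X := by
      rw [hX]; exact Finset.dvd_prod_of_mem (fun i => (w i : ℤ)) (Finset.mem_univ _)
    have h2 := Int.le_of_dvd (by omega) h1
    have h3 := w5 ⟨0, by omega⟩
    omega
  have hshift : (fun i => tup (fun i => (w i : ℤ)) v i + 1) =
      tup (fun i => (w i : ℤ) + 1) v' := by
    funext i
    refine Fin.addCases (fun i => ?_) (fun i => ?_) i
    · rw [tup_castAdd, tup_castAdd]
    · rw [tup_natAdd, tup_natAdd]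
      fin_cases i
      · show Z * (Z * (u - m)) + 1 = (Z * Z - X) * u
        linear_combination -r1
      · show X * (u - m) + 1 = (Z * Z - X) * m
        linear_combination -r1
      · show Z * (u - Z * m) + 1 = (Z - X) * u
        linear_combination -r1
      · show X * (u - Z * m) + 1 = Z * ((Z - X) * m)
        linear_combination -r1
  have hXq : (X : ℚ) = ∏ i, ((w i : ℤ) : ℚ) := by rw [hX]; push_cast; rfl
  have hZq : (Z : ℚ) = ∏ i, (((w i : ℤ) + 1 : ℤ) : ℚ) := by rw [hZ]; push_cast; rfl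
  have X0q : (X : ℚ) ≠ 0 := by exact_mod_cast (by omega : X ≠ 0)
  have Z0q : (Z : ℚ) ≠ 0 := by exact_mod_cast (by omega : Z ≠ 0)
  have p0q : ((u : ℚ) - m) ≠ 0 := by exact_mod_cast p0.ne'
  have q0q : ((u : ℚ) - Z * m) ≠ 0 := by exact_mod_cast q0.ne'
  have u0q : (u : ℚ) ≠ 0 := by exact_mod_cast u0.ne'
  have m0q : (m : ℚ) ≠ 0 := by exact_mod_cast m0.ne'
  have T1q : ((Z : ℚ) * Z - X) ≠ 0 := by exact_mod_cast hT1.ne'
  have T2q : ((Z : ℚ) - X) ≠ 0 := by exact_mod_cast hT2.ne'
  have hneq : ∀ (g : Fin 4 → ℤ), tup (fun _ : Fin j => (1 : ℤ)) g ≠ 0 := by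
    intro g hg
    have := congrFun hg (Fin.castAdd 4 ⟨0, by omega⟩)
    rw [tup_castAdd] at this
    simp at this
  refine ⟨tup (fun i => (w i : ℤ)) v, ?_, ?_, ?_, ?_, ?_, ⟨Fin.natAdd j 1, ?_⟩⟩
  · apply tup_forall
    · intro i
      have := w5 i
      omega
    · intro i
      fin_cases i
      · show 1 < Z * (Z * (u - m))
        nlinarith [mul_pos hZ0 p0]
      · show 1 < X * (u - m)
        nlinarith
      · show 1 < Z * (u - Z * m)
        nlinarith
      · show 1 < X * (u - Z * m)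
        nlinarith
  · refine ⟨tup (fun _ => 1) ![-1, 1, 2, -2], hneq _, ?_⟩
    rw [tup_prod]
    simp only [zpow_one, ← hXq]
    simp only [hv, Matrix.cons_val_zero, Matrix.cons_val_one, Matrix.cons_val]
    have e2 : ∀ x : ℚ, x ^ (2 : ℤ) = x ^ 2 := fun x => zpow_ofNat x 2
    rw [zpow_neg, zpow_neg, zpow_one, zpow_one, e2, e2]
    push_cast
    field_simp
  · exact full_orig _ w X Z (u - m) (u - Z * m) hX wp (fun _ => rfl) winj wZ (by omega)
      p0.ne' q0.ne' P Q hP hQ P1 P2 P3 P4 Q1 Q2 Q3 Q4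
  · rw [hshift]
    refine ⟨tup (fun _ => 1) ![-1, 1, 1, -1], hneq _, ?_⟩
    rw [tup_prod]
    simp only [zpow_one, ← hZq]
    simp only [hv', Matrix.cons_val_zero, Matrix.cons_val_one, Matrix.cons_val]
    rw [zpow_neg, zpow_neg, zpow_one, zpow_one, zpow_one, zpow_one]
    push_cast
    field_simp
    exact div_self (fun h => T1q (by rw [← h]; ring))
  · rw [hshift]
    exact full_shift _ pi (Z * Z - X) (Z - X) Z m u hZ
      (fun i => by have := w5 i; omega) pip (fun i => by exact_mod_cast pid i) pin hT1.ne' hT2.ne'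
      m0.ne' u0.ne' R S h hR hS hh R1 R2 R3 R4 R5 S1 S2 S3 S4 S5 hV hhZ
  · rw [tup_natAdd]
    show B < X * (u - m)
    nlinarith

lemma infinite_of_large {n : ℕ} (S : Set (Fin n → ℤ)) (h : ∀ B : ℤ, ∃ a ∈ S, ∃ i, B < a i) :
    S.Infinite := by
  intro hfin
  have h1 : ((fun x : (Fin n → ℤ) × Fin n => x.1 x.2) '' (S ×ˢ (Set.univ : Set (Fin n)))).Finite :=
    (hfin.prod Set.finite_univ).image _
  obtain ⟨B, hB⟩ := h1.bddAbove
  obtain ⟨a, ha, i, hi⟩ := h B
  have := hB ⟨(a, i), ⟨ha, Set.mem_univ _⟩, rfl⟩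
  exact absurd hi (not_lt.mpr this)

theorem main (n : ℕ) (hn : 4 ≤ n) :
    {a : Fin n → ℤ | Function.Injective a ∧ (∀ i, 1 < a i) ∧ KMulDep n a ∧
      KMulDep n (fun i => a i + 1)}.Infinite := by
  apply infinite_of_large
  intro B
  rcases Nat.eq_or_lt_of_le hn with rfl | hn5
  · -- n = 4
    set y : ℤ := |B| + 2 with hy
    have hy2 : 2 ≤ y := by have := abs_nonneg B; omega
    have hBy : B < y := by have := le_abs_self B; omega
    set v : Fin 4 → ℤ := ![y * (y ^ 2 - 1), y ^ 2 + y - 1, y * (y * (y ^ 2 + y - 1)), y ^ 2 - 1]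
      with hv
    have hshift : (fun i => v i + 1) =
        ![y ^ 3 - y + 1, y * (y + 1), (y + 1) * (y ^ 3 - y + 1), y * y] := by
      funext i
      fin_cases i
      · show y * (y ^ 2 - 1) + 1 = y ^ 3 - y + 1
        ring
      · show y ^ 2 + y - 1 + 1 = y * (y + 1)
        ring
      · show y * (y * (y ^ 2 + y - 1)) + 1 = (y + 1) * (y ^ 3 - y + 1)
        ring
      · show y ^ 2 - 1 + 1 = y * y
        ring
    have hpos : ∀ i, 1 < v i := by
      intro i
      fin_cases i
      · show 1 < y * (y ^ 2 - 1)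
        nlinarith
      · show 1 < y ^ 2 + y - 1
        nlinarith
      · show 1 < y * (y * (y ^ 2 + y - 1))
        have : 1 < y ^ 2 + y - 1 := by nlinarith
        nlinarith [mul_pos (by omega : 0 < y) (by omega : 0 < y)]
      · show 1 < y ^ 2 - 1
        nlinarith
    refine ⟨v, ⟨injective_of_full (by norm_num) v hpos (full_four y hy2), hpos,
      kmulDep_of_full (by norm_num) v (dep_four y hy2) (full_four y hy2), ?_⟩, 1, ?_⟩
    · rw [hshift]
      exact kmulDep_of_full (by norm_num) _ (dep_four' y hy2) (full_four' y hy2)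
    · show B < y ^ 2 + y - 1
      nlinarith
  · obtain ⟨j, rfl⟩ : ∃ j, n = j + 4 := ⟨n - 4, by omega⟩
    obtain ⟨a, h1, h2, h3, h4, h5, h6⟩ := exists_large j (by omega) B
    exact ⟨a, ⟨injective_of_full (by omega) a h1 h3, h1, kmulDep_of_full (by omega) a h2 h3,
      kmulDep_of_full (by omega) _ h4 h5⟩, h6⟩

end Pool.Agent.R441.MD
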