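import Pool.Agent.R441.MD.Fam

/-!
Construction of the parameters and the main theorem.
-/

namespace Pool.Agent.R441.MD

open Finset

/-- an infinite sequence of primes `≡ 1 mod 4`, each `≡ 1` modulo `x (x+1)` for all previous
members `x`. -/
lemma exists_seq : ∃ f : ℕ → ℕ, (∀ n, (f n).Prime ∧ f n % 4 = 1) ∧
    ∀ m n, m < n → f m < f n ∧ f n ≡ 1 [MOD (f m * (f m + 1))] := by
  apply exists_seq_of_forall_finset_exists (fun x => x.Prime ∧ x % 4 = 1)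
    (fun x y => x < y ∧ y ≡ 1 [MOD (x * (x + 1))])
  intro s hs
  have hK : 4 * ∏ x ∈ s, (x * (x + 1)) ≠ 0 := by
    apply mul_ne_zero (by norm_num)
    rw [Finset.prod_ne_zero_iff]
    intro x hx
    have := (hs x hx).1.pos
    positivity
  obtain ⟨p, hp, hgt, hmod⟩ := Nat.exists_prime_gt_modEq_one (s.sup id) hK
  refine ⟨p, ⟨hp, ?_⟩, ?_⟩
  · have : p ≡ 1 [MOD 4] := hmod.of_mul_right _
    exact this
  · intro x hx
    refine ⟨lt_of_le_of_lt (Finset.le_sup (f := id) hx) hgt, ?_⟩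
    have h1 : (x * (x + 1)) ∣ ∏ x ∈ s, (x * (x + 1)) :=
      Finset.dvd_prod_of_mem (fun x => x * (x + 1)) hx
    exact hmod.of_dvd (h1.mul_left 4)

/-- one step of the Chinese remainder construction -/
lemma crt_step (M k0 b c : ℤ) (P : ℕ) (hP : P.Prime) (hM : ¬ (P : ℤ) ∣ M)
    (hc : ¬ (P : ℤ) ∣ c) : ∃ t : ℤ, (P : ℤ) ∣ b + c * (k0 + M * t) := by
  have hPi : Prime (P : ℤ) := Nat.prime_iff_prime_int.mp hP
  have h : ¬ (P : ℤ) ∣ c * M := fun hd => (hPi.dvd_or_dvd hd).elim hc hM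
  have hcop : IsCoprime (P : ℤ) (c * M) := (hPi.coprime_iff_not_dvd).mpr h
  obtain ⟨r, s, hrs⟩ := hcop
  refine ⟨-s * (b + c * k0), ?_⟩
  have : b + c * (k0 + M * (-s * (b + c * k0))) = (b + c * k0) * (r * P) := by
    have h' : r * (P : ℤ) = 1 - s * (c * M) := by linarith
    rw [h']; ring
  rw [this]
  exact ⟨(b + c * k0) * r, by ring⟩

lemma not_dvd_of_lt {P : ℕ} {x : ℤ} (h0 : 0 < x) (h : x < P) : ¬ (P : ℤ) ∣ x := fun hd => by
  have := Int.le_of_dvd h0 hd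
  omega

/-- four simultaneous divisibility conditions, with a large solution -/
lemma crt_four (b1 c1 b2 c2 b3 c3 b4 c4 K : ℤ) (P1 P2 P3 P4 : ℕ) (h1 : P1.Prime)
    (h2 : P2.Prime) (h3 : P3.Prime) (h4 : P4.Prime) (h12 : P1 < P2) (h23 : P2 < P3)
    (h34 : P3 < P4) (k1 : ¬ (P1 : ℤ) ∣ c1) (k2 : ¬ (P2 : ℤ) ∣ c2) (k3 : ¬ (P3 : ℤ) ∣ c3)
    (k4 : ¬ (P4 : ℤ) ∣ c4) : ∃ k : ℤ, K ≤ k ∧ (P1 : ℤ) ∣ b1 + c1 * k ∧ (P2 : ℤ) ∣ b2 + c2 * k ∧
      (P3 : ℤ) ∣ b3 + c3 * k ∧ (P4 : ℤ) ∣ b4 + c4 * k := by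
  have pi : ∀ {P : ℕ}, P.Prime → Prime (P : ℤ) := fun h => Nat.prime_iff_prime_int.mp h
  have nd : ∀ {P Q : ℕ}, P.Prime → Q.Prime → P < Q → ¬ (Q : ℤ) ∣ (P : ℤ) := by
    intro P Q hP hQ hPQ
    exact not_dvd_of_lt (by exact_mod_cast hP.pos) (by exact_mod_cast hPQ)
  obtain ⟨t1, ht1⟩ := crt_step 1 0 b1 c1 P1 h1
    (not_dvd_of_lt one_pos (by exact_mod_cast h1.one_lt)) k1
  obtain ⟨t2, ht2⟩ := crt_step P1 (0 + 1 * t1) b2 c2 P2 h2 (nd h1 h2 h12) k2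
  obtain ⟨t3, ht3⟩ := crt_step (P1 * P2) (0 + 1 * t1 + P1 * t2) b3 c3 P3 h3
    (fun hd => ((pi h3).dvd_or_dvd hd).elim (nd h1 h3 (h12.trans h23)) (nd h2 h3 h23)) k3
  obtain ⟨t4, ht4⟩ := crt_step (P1 * P2 * P3) (0 + 1 * t1 + P1 * t2 + P1 * P2 * t3) b4 c4 P4 h4
    (fun hd => ((pi h4).dvd_or_dvd hd).elim
      (fun hd => ((pi h4).dvd_or_dvd hd).elim (nd h1 h4 (h12.trans (h23.trans h34)))
        (nd h2 h4 (h23.trans h34))) (nd h3 h4 h34)) k4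
  set k0 : ℤ := 0 + 1 * t1 + P1 * t2 + P1 * P2 * t3 + P1 * P2 * P3 * t4 with hk0
  set M : ℤ := P1 * P2 * P3 * P4 with hM
  have hMpos : 1 ≤ M := by
    have := h1.pos; have := h2.pos; have := h3.pos; have := h4.pos
    have : (0 : ℤ) < M := by positivity
    omega
  refine ⟨k0 + M * (|K| + |k0|), ?_, ?_, ?_, ?_, ?_⟩
  · have h5 := le_abs_self K
    have h6 := neg_abs_le k0
    have h7 : (|K| + |k0|) ≤ M * (|K| + |k0|) :=
      le_mul_of_one_le_left (by positivity) hMpos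
    linarith
  · obtain ⟨r, hr⟩ := ht1
    exact ⟨r + c1 * (t2 + P2 * t3 + P2 * P3 * t4 + P2 * P3 * P4 * (|K| + |k0|)), by
      linear_combination hr + c1 * hk0 + c1 * (|K| + |k0|) * hM⟩
  · obtain ⟨r, hr⟩ := ht2
    exact ⟨r + c2 * (P1 * t3 + P1 * P3 * t4 + P1 * P3 * P4 * (|K| + |k0|)), by
      linear_combination hr + c2 * hk0 + c2 * (|K| + |k0|) * hM⟩
  · obtain ⟨r, hr⟩ := ht3
    exact ⟨r + c3 * (P1 * P2 * t4 + P1 * P2 * P4 * (|K| + |k0|)), by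
      linear_combination hr + c3 * hk0 + c3 * (|K| + |k0|) * hM⟩
  · obtain ⟨r, hr⟩ := ht4
    exact ⟨r + c4 * (P1 * P2 * P3 * (|K| + |k0|)), by
      linear_combination hr + c4 * (|K| + |k0|) * hM⟩

/-- The parameters `m, u`. -/
lemma exists_params (X Z : ℤ) (hX : 1 ≤ X) (hXZ : X < Z) (hcop : IsCoprime (Z * Z) X) (B : ℤ) :
    ∃ (m u : ℤ) (P Q R S : ℕ), Z * Z * m - X * u = 1 ∧ 0 < m ∧ 0 < u ∧ B < u - m ∧
      0 < u - m ∧ 0 < u - Z * m ∧ P.Prime ∧ Q.Prime ∧ R.Prime ∧ S.Prime ∧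
      (P : ℤ) ∣ u - m ∧ ¬ (P : ℤ) ∣ X ∧ ¬ (P : ℤ) ∣ Z ∧ ¬ (P : ℤ) ∣ u - Z * m ∧
      (Q : ℤ) ∣ u - Z * m ∧ ¬ (Q : ℤ) ∣ X ∧ ¬ (Q : ℤ) ∣ Z ∧ ¬ (Q : ℤ) ∣ u - m ∧
      (R : ℤ) ∣ u ∧ ¬ (R : ℤ) ∣ m ∧ ¬ (R : ℤ) ∣ Z * Z - X ∧ ¬ (R : ℤ) ∣ Z - X ∧
        ¬ (R : ℤ) ∣ Z ∧
      (S : ℤ) ∣ m ∧ ¬ (S : ℤ) ∣ u ∧ ¬ (S : ℤ) ∣ Z * Z - X ∧ ¬ (S : ℤ) ∣ Z - X ∧
        ¬ (S : ℤ) ∣ Z := by
  obtain ⟨a, b, hab⟩ := hcop
  have hZ0 : 0 < Z := by omega
  set N : ℕ := (Z * Z * Z + 1).toNat with hN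
  have hZZ : 0 < Z * Z * Z := by positivity
  have hNZ : (N : ℤ) = Z * Z * Z + 1 := Int.toNat_of_nonneg (by omega)
  obtain ⟨P, hPN, hP⟩ := Nat.exists_infinite_primes (N + 1)
  obtain ⟨Q, hQP, hQ⟩ := Nat.exists_infinite_primes (P + 1)
  obtain ⟨R, hRQ, hR⟩ := Nat.exists_infinite_primes (Q + 1)
  obtain ⟨S, hSR, hS⟩ := Nat.exists_infinite_primes (R + 1)
  have big : ∀ {p : ℕ}, N + 1 ≤ p → ∀ x : ℤ, 0 < x → x ≤ Z * Z * Z → ¬ (p : ℤ) ∣ x := by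
    intro p hp x hx0 hx
    apply not_dvd_of_lt hx0
    have : ((N + 1 : ℕ) : ℤ) ≤ p := by exact_mod_cast hp
    push_cast at this
    omega
  have e1 : 0 < Z * Z - X := by nlinarith
  have e2 : 0 < Z - X := by omega
  have e3 : 0 < Z * (Z - X) := by nlinarith
  have f1 : Z * Z - X ≤ Z * Z * Z := by nlinarith [mul_pos (by omega : 0 < Z) (by omega : 0 < Z)]
  have f2 : Z - X ≤ Z * Z * Z := by nlinarith [mul_pos (by omega : 0 < Z) (by omega : 0 < Z)]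
  have f3 : Z * (Z - X) ≤ Z * Z * Z := by
    nlinarith [mul_pos (by omega : 0 < Z) (by omega : 0 < Z)]
  have f4 : Z * Z ≤ Z * Z * Z := by nlinarith [mul_pos (by omega : 0 < Z) (by omega : 0 < Z)]
  have f5 : Z ≤ Z * Z * Z := by nlinarith [mul_pos (by omega : 0 < Z) (by omega : 0 < Z)]
  have f6 : X ≤ Z * Z * Z := by omega
  have f7 : 0 < Z * Z := by positivity
  have bP : N + 1 ≤ P := hPN
  have bQ : N + 1 ≤ Q := by omega
  have bR : N + 1 ≤ R := by omega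
  have bS : N + 1 ≤ S := by omega
  -- m = a + X k, u = -b + Z Z k
  obtain ⟨k, hk, d1, d2, d3, d4⟩ := crt_four (-b - a) (Z * Z - X) (-b - Z * a) (Z * (Z - X))
    (-b) (Z * Z) a X (|a| + |b| + |Z * a| + |B| + 1) P Q R S hP hQ hR hS (by omega) (by omega)
    (by omega) (big bP _ e1 f1) (big bQ _ e3 f3) (big bR _ f7 f4) (big bS _ (by omega) f6)
  set m := a + X * k with hm
  set u := -b + Z * Z * k with hu
  have r1 : Z * Z * m - X * u = 1 := by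
    rw [hm, hu]; linarith [hab]
  have r2 : u - m = -b - a + (Z * Z - X) * k := by rw [hm, hu]; ring
  have r3 : u - Z * m = -b - Z * a + Z * (Z - X) * k := by rw [hm, hu]; ring
  have ha := neg_abs_le a
  have hb := neg_abs_le b
  have ha' := le_abs_self a
  have hb' := le_abs_self b
  have hza := le_abs_self (Z * a)
  have hB := le_abs_self B
  have hab0 := abs_nonneg a
  have hbb0 := abs_nonneg b
  have hzb0 := abs_nonneg (Z * a)
  have hBB0 := abs_nonneg B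
  have hk0 : 0 < k := by omega
  have g1 : k ≤ X * k := le_mul_of_one_le_left hk0.le hX
  have g2 : k ≤ Z * Z * k := le_mul_of_one_le_left hk0.le (by omega)
  have g3 : k ≤ (Z * Z - X) * k := le_mul_of_one_le_left hk0.le (by omega)
  have g4 : k ≤ Z * (Z - X) * k := le_mul_of_one_le_left hk0.le (by omega)
  have m0 : 0 < m := by rw [hm]; omega
  have u0 : 0 < u := by rw [hu]; omega
  -- common divisors
  have cd : ∀ {p : ℕ}, p.Prime → (p : ℤ) ∣ m → ¬ (p : ℤ) ∣ u := by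
    intro p hp h1 h2
    have : (p : ℤ) ∣ 1 := by
      rw [← r1]
      exact dvd_sub (h1.mul_left _) (h2.mul_left _)
    have := Int.le_of_dvd one_pos this
    have := hp.two_le
    omega
  have cd2 : ∀ {p : ℕ}, p.Prime → N + 1 ≤ p → (p : ℤ) ∣ u - m → ¬ (p : ℤ) ∣ u - Z * m := by
    intro p hp hb h1 h2
    have h3 : (p : ℤ) ∣ (Z - 1) * m := by
      have := dvd_sub h1 h2
      have e : u - m - (u - Z * m) = (Z - 1) * m := by ring
      rwa [e] at this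
    have hpi : Prime (p : ℤ) := Nat.prime_iff_prime_int.mp hp
    rcases hpi.dvd_or_dvd h3 with h | h
    · exact big hb (Z - 1) (by omega) (by omega) h
    · apply cd hp h
      have := dvd_add h1 h
      have e : u - m + m = u := by ring
      rwa [e] at this
  have D1 : (P : ℤ) ∣ u - m := by rw [r2]; exact d1
  have D2 : (Q : ℤ) ∣ u - Z * m := by rw [r3]; exact d2
  refine ⟨m, u, P, Q, R, S, r1, m0, u0, by rw [r2]; omega, by rw [r2]; omega, by rw [r3]; omega,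
    hP, hQ, hR, hS, D1, big bP _ (by omega) f6, big bP _ (by omega) f5, cd2 hP bP D1,
    D2, big bQ _ (by omega) f6, big bQ _ (by omega) f5, fun h => cd2 hQ bQ h D2,
    d3, fun h => cd hR h d3, big bR _ e1 f1, big bR _ e2 f2, big bR _ (by omega) f5,
    d4, cd hS d4, big bS _ e1 f1, big bS _ e2 f2, big bS _ (by omega) f5⟩

end Pool.Agent.R441.MD
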