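import Pool.Agent.R441.MD.Basic

/-!
Valuation helpers and the explicit families.
-/

namespace Pool.Agent.R441.MD

open Finset

/-- the `p`-adic valuation of an integer, as an integer -/
noncomputable def V (p : ℕ) (x : ℤ) : ℤ := padicValRat p (x : ℚ)

lemma V_mul (p : ℕ) [Fact p.Prime] {x y : ℤ} (hx : x ≠ 0) (hy : y ≠ 0) :
    V p (x * y) = V p x + V p y := by
  unfold V
  push_cast
  exact padicValRat.mul (by exact_mod_cast hx) (by exact_mod_cast hy)

lemma V_nonneg (p : ℕ) (x : ℤ) : 0 ≤ V p x := by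
  unfold V
  rw [padicValRat.of_int]
  positivity

lemma V_eq_zero (p : ℕ) {x : ℤ} (h : ¬ (p : ℤ) ∣ x) : V p x = 0 := by
  unfold V
  rw [padicValRat.of_int, padicValInt.eq_zero_of_not_dvd h]
  rfl

lemma V_ne_zero (p : ℕ) [hp : Fact p.Prime] {x : ℤ} (hx : x ≠ 0) (h : (p : ℤ) ∣ x) :
    V p x ≠ 0 := by
  obtain ⟨y, rfl⟩ := h
  have hy : y ≠ 0 := right_ne_zero_of_mul hx
  have hp0 : (p : ℤ) ≠ 0 := by exact_mod_cast hp.out.ne_zero
  rw [V_mul p hp0 hy]
  have h1 : V p (p : ℤ) = 1 := by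
    unfold V
    have : ((p : ℤ) : ℚ) = (p : ℚ) := by push_cast; rfl
    rw [this]
    exact padicValRat.self hp.out.one_lt
  have := V_nonneg p y
  omega

lemma V_prod (p : ℕ) [Fact p.Prime] {ι : Type*} (s : Finset ι) (f : ι → ℤ)
    (hf : ∀ i ∈ s, f i ≠ 0) : V p (∏ i ∈ s, f i) = ∑ i ∈ s, V p (f i) := by
  classical
  induction s using Finset.induction_on with
  | empty => simp [V]
  | insert i s hi ih =>
    rw [Finset.prod_insert hi, Finset.sum_insert hi, V_mul p (hf i (by simp))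
      (Finset.prod_ne_zero_iff.mpr (fun j hj => hf j (by simp [hj]))),
      ih (fun j hj => hf j (by simp [hj]))]

lemma val_sum' {n : ℕ} (a : Fin n → ℤ) (hpos : ∀ i, a i ≠ 0) (e : Fin n → ℤ)
    (h : ∏ i, (a i : ℚ) ^ (e i) = 1) (p : ℕ) [hp : Fact p.Prime] :
    ∑ i, e i * V p (a i) = 0 := val_sum a hpos e h p

lemma exists_prime_dvd {x : ℤ} (hx : 2 ≤ x) : ∃ p : ℕ, p.Prime ∧ (p : ℤ) ∣ x := by
  refine ⟨x.natAbs.minFac, Nat.minFac_prime (by omega), ?_⟩
  exact Int.natCast_dvd.mpr (Nat.minFac_dvd _)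

lemma not_dvd_of_coprime {p : ℕ} (hp : p.Prime) {x y : ℤ} (h : IsCoprime x y)
    (hx : (p : ℤ) ∣ x) : ¬ (p : ℤ) ∣ y := by
  intro hy
  obtain ⟨a, b, hab⟩ := h
  have h1 : (p : ℤ) ∣ 1 := by
    rw [← hab]; exact dvd_add (hx.mul_left a) (hy.mul_left b)
  have := Int.le_of_dvd one_pos h1
  have := hp.two_le
  omega

/-- The family for `n = 4`, original tuple. -/
lemma full_four (y : ℤ) (hy : 2 ≤ y) :
    Full ![y * (y ^ 2 - 1), y ^ 2 + y - 1, y * (y * (y ^ 2 + y - 1)), y ^ 2 - 1] := by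
  intro e he ⟨i0, hi0⟩
  have hy0 : y ≠ 0 := by omega
  have hd : y ^ 2 - 1 ≠ 0 := by nlinarith
  have hb : y ^ 2 + y - 1 ≠ 0 := by nlinarith
  have hne : ∀ i, (![y * (y ^ 2 - 1), y ^ 2 + y - 1, y * (y * (y ^ 2 + y - 1)), y ^ 2 - 1] :
      Fin 4 → ℤ) i ≠ 0 := by
    intro i
    fin_cases i
    · exact mul_ne_zero hy0 hd
    · exact hb
    · exact mul_ne_zero hy0 (mul_ne_zero hy0 hb)
    · exact hd
  have key : ∀ p : ℕ, p.Prime → e 0 * (V p y + V p (y ^ 2 - 1)) + e 1 * V p (y ^ 2 + y - 1) +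
      e 2 * (V p y + (V p y + V p (y ^ 2 + y - 1))) + e 3 * V p (y ^ 2 - 1) = 0 := by
    intro p hp
    haveI : Fact p.Prime := ⟨hp⟩
    have := val_sum' _ hne e he p
    rw [Fin.sum_univ_four] at this
    simp only [Matrix.cons_val_zero, Matrix.cons_val_one, Matrix.cons_val] at this
    rw [V_mul p hy0 hd, V_mul p hy0 (mul_ne_zero hy0 hb), V_mul p hy0 hb] at this
    exact this
  have c1 : IsCoprime y (y ^ 2 - 1) := ⟨y, -1, by ring⟩
  have c2 : IsCoprime y (y ^ 2 + y - 1) := ⟨y + 1, -1, by ring⟩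
  have c3 : IsCoprime (y ^ 2 - 1) (y ^ 2 + y - 1) := ⟨-(y + 1), y, by ring⟩
  -- prime dividing y
  have h1 : e 0 + 2 * e 2 = 0 := by
    obtain ⟨p, hp, hpy⟩ := exists_prime_dvd hy
    haveI : Fact p.Prime := ⟨hp⟩
    have := key p hp
    rw [V_eq_zero p (not_dvd_of_coprime hp c1 hpy), V_eq_zero p (not_dvd_of_coprime hp c2 hpy)]
      at this
    have hv := V_ne_zero p hy0 hpy
    have h : (e 0 + 2 * e 2) * V p y = 0 := by linarith
    exact (mul_eq_zero.mp h).resolve_right hv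
  have h2 : e 1 + e 2 = 0 := by
    obtain ⟨p, hp, hpy⟩ := exists_prime_dvd (x := y ^ 2 + y - 1) (by nlinarith)
    haveI : Fact p.Prime := ⟨hp⟩
    have := key p hp
    rw [V_eq_zero p (not_dvd_of_coprime hp c2.symm hpy),
      V_eq_zero p (not_dvd_of_coprime hp c3.symm hpy)] at this
    have hv := V_ne_zero p hb hpy
    have h : (e 1 + e 2) * V p (y ^ 2 + y - 1) = 0 := by linarith
    exact (mul_eq_zero.mp h).resolve_right hv
  have h3 : e 0 + e 3 = 0 := by
    obtain ⟨p, hp, hpy⟩ := exists_prime_dvd (x := y ^ 2 - 1) (by nlinarith)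
    haveI : Fact p.Prime := ⟨hp⟩
    have := key p hp
    rw [V_eq_zero p (not_dvd_of_coprime hp c1.symm hpy),
      V_eq_zero p (not_dvd_of_coprime hp c3 hpy)] at this
    have hv := V_ne_zero p hd hpy
    have h : (e 0 + e 3) * V p (y ^ 2 - 1) = 0 := by linarith
    exact (mul_eq_zero.mp h).resolve_right hv
  have h4 : e 0 = 0 ∨ e 1 = 0 ∨ e 2 = 0 ∨ e 3 = 0 := by
    fin_cases i0
    · left; exact hi0
    · right; left; exact hi0
    · right; right; left; exact hi0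
    · right; right; right; exact hi0
  funext i
  fin_cases i <;> simp <;> omega

/-- The family for `n = 4`, shifted tuple. -/
lemma full_four' (y : ℤ) (hy : 2 ≤ y) :
    Full ![y ^ 3 - y + 1, y * (y + 1), (y + 1) * (y ^ 3 - y + 1), y * y] := by
  intro e he ⟨i0, hi0⟩
  have hy0 : y ≠ 0 := by omega
  have hd : y + 1 ≠ 0 := by omega
  have hb2 : 2 ≤ y ^ 3 - y + 1 := by nlinarith [sq_nonneg y, mul_self_nonneg (y - 1)]
  have hb : y ^ 3 - y + 1 ≠ 0 := by omega
  have hne : ∀ i, (![y ^ 3 - y + 1, y * (y + 1), (y + 1) * (y ^ 3 - y + 1), y * y] :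
      Fin 4 → ℤ) i ≠ 0 := by
    intro i
    fin_cases i
    · exact hb
    · exact mul_ne_zero hy0 hd
    · exact mul_ne_zero hd hb
    · exact mul_ne_zero hy0 hy0
  have key : ∀ p : ℕ, p.Prime → e 0 * V p (y ^ 3 - y + 1) + e 1 * (V p y + V p (y + 1)) +
      e 2 * (V p (y + 1) + V p (y ^ 3 - y + 1)) + e 3 * (V p y + V p y) = 0 := by
    intro p hp
    haveI : Fact p.Prime := ⟨hp⟩
    have := val_sum' _ hne e he p
    rw [Fin.sum_univ_four] at this
    simp only [Matrix.cons_val_zero, Matrix.cons_val_one, Matrix.cons_val] at this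
    rw [V_mul p hy0 hd, V_mul p hd hb, V_mul p hy0 hy0] at this
    exact this
  have c1 : IsCoprime y (y + 1) := ⟨-1, 1, by ring⟩
  have c2 : IsCoprime y (y ^ 3 - y + 1) := ⟨1 - y ^ 2, 1, by ring⟩
  have c3 : IsCoprime (y + 1) (y ^ 3 - y + 1) := ⟨y * (1 - y), 1, by ring⟩
  have h1 : e 1 + 2 * e 3 = 0 := by
    obtain ⟨p, hp, hpy⟩ := exists_prime_dvd hy
    haveI : Fact p.Prime := ⟨hp⟩
    have := key p hp
    rw [V_eq_zero p (not_dvd_of_coprime hp c1 hpy), V_eq_zero p (not_dvd_of_coprime hp c2 hpy)]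
      at this
    have hv := V_ne_zero p hy0 hpy
    have h : (e 1 + 2 * e 3) * V p y = 0 := by linarith
    exact (mul_eq_zero.mp h).resolve_right hv
  have h2 : e 1 + e 2 = 0 := by
    obtain ⟨p, hp, hpy⟩ := exists_prime_dvd (x := y + 1) (by omega)
    haveI : Fact p.Prime := ⟨hp⟩
    have := key p hp
    rw [V_eq_zero p (not_dvd_of_coprime hp c1.symm hpy),
      V_eq_zero p (not_dvd_of_coprime hp c3 hpy)] at this
    have hv := V_ne_zero p hd hpy
    have h : (e 1 + e 2) * V p (y + 1) = 0 := by linarith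
    exact (mul_eq_zero.mp h).resolve_right hv
  have h3 : e 0 + e 2 = 0 := by
    obtain ⟨p, hp, hpy⟩ := exists_prime_dvd hb2
    haveI : Fact p.Prime := ⟨hp⟩
    have := key p hp
    rw [V_eq_zero p (not_dvd_of_coprime hp c2.symm hpy),
      V_eq_zero p (not_dvd_of_coprime hp c3.symm hpy)] at this
    have hv := V_ne_zero p hb hpy
    have h : (e 0 + e 2) * V p (y ^ 3 - y + 1) = 0 := by linarith
    exact (mul_eq_zero.mp h).resolve_right hv
  have h4 : e 0 = 0 ∨ e 1 = 0 ∨ e 2 = 0 ∨ e 3 = 0 := by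
    fin_cases i0
    · left; exact hi0
    · right; left; exact hi0
    · right; right; left; exact hi0
    · right; right; right; exact hi0
  funext i
  fin_cases i <;> simp <;> omega

lemma dep_four (y : ℤ) (hy : 2 ≤ y) :
    MulDep ![y * (y ^ 2 - 1), y ^ 2 + y - 1, y * (y * (y ^ 2 + y - 1)), y ^ 2 - 1] := by
  refine ⟨![2, 1, -1, -2], ?_, ?_⟩
  · intro h
    have := congrFun h 0
    simp at this
  · have hd : ((y : ℚ) ^ 2 - 1) ≠ 0 := by
      have : y ^ 2 - 1 ≠ 0 := by nlinarith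
      exact_mod_cast this
    have hb : ((y : ℚ) ^ 2 + y - 1) ≠ 0 := by
      have : y ^ 2 + y - 1 ≠ 0 := by nlinarith
      exact_mod_cast this
    have hy0 : (y : ℚ) ≠ 0 := by
      have : y ≠ 0 := by omega
      exact_mod_cast this
    rw [Fin.prod_univ_four]
    simp only [Matrix.cons_val_zero, Matrix.cons_val_one, Matrix.cons_val]
    rw [zpow_neg, zpow_neg, zpow_one, zpow_one]
    have e2 : ∀ x : ℚ, x ^ (2 : ℤ) = x ^ 2 := fun x => zpow_ofNat x 2
    rw [e2, e2]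
    push_cast
    field_simp
    exact div_self (fun h => hb (by linarith))

lemma dep_four' (y : ℤ) (hy : 2 ≤ y) :
    MulDep ![y ^ 3 - y + 1, y * (y + 1), (y + 1) * (y ^ 3 - y + 1), y * y] := by
  refine ⟨![2, 2, -2, -1], ?_, ?_⟩
  · intro h
    have := congrFun h 0
    simp at this
  · have hb2 : 2 ≤ y ^ 3 - y + 1 := by nlinarith [sq_nonneg y, mul_self_nonneg (y - 1)]
    have hb : ((y : ℚ) ^ 3 - y + 1) ≠ 0 := by
      have : y ^ 3 - y + 1 ≠ 0 := by omega
      exact_mod_cast this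
    have hd : ((y : ℚ) + 1) ≠ 0 := by
      have : y + 1 ≠ 0 := by omega
      exact_mod_cast this
    have hy0 : (y : ℚ) ≠ 0 := by
      have : y ≠ 0 := by omega
      exact_mod_cast this
    rw [Fin.prod_univ_four]
    simp only [Matrix.cons_val_zero, Matrix.cons_val_one, Matrix.cons_val]
    rw [zpow_neg, zpow_neg, zpow_one]
    have e2 : ∀ x : ℚ, x ^ (2 : ℤ) = x ^ 2 := fun x => zpow_ofNat x 2
    rw [e2, e2, e2]
    push_cast
    field_simp
    exact div_self (fun h => hb (by linarith))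

end Pool.Agent.R441.MD
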